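import Pool.Agent.Helper84.SPN.St

/-!
Module LFI of project SPN (MP_a2f62e_al): the stabiliser of `e₀` and `f₀` in `Sp_{2m+2}(F)` is `Sp_{2m}(F)`.
-/

set_option autoImplicit false

namespace Pool.Agent.Helper20.SPN

open Pool.Agent.Helper84.SPN Pool.Agent.Helper75.MX

variable {m : ℕ} {F : Type} [Field F]

/-- the last coordinates -/
def T (v : VV (m + 1) F) : VV m F := (Fin.tail v.1, Fin.tail v.2)

/-- a vector with given first coordinates -/
def C (a c : F) (v : VV m F) : VV (m + 1) F := (Fin.cons a v.1, Fin.cons c v.2)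

omit [Field F] in
lemma T_C (a c : F) (v : VV m F) : T (C a c v) = v := rfl

omit [Field F] in
lemma C_T (v : VV (m + 1) F) : C (v.1 0) (v.2 0) (T v) = v := by
  refine Prod.ext ?_ ?_
  · exact Fin.cons_self_tail v.1
  · exact Fin.cons_self_tail v.2

lemma T_add (v w : VV (m + 1) F) : T (v + w) = T v + T w := rfl

lemma T_smul (k : F) (v : VV (m + 1) F) : T (k • v) = k • T v := rfl

lemma C_add (a c a' c' : F) (v w : VV m F) : C (a + a') (c + c') (v + w) = C a c v + C a' c' w := by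
  refine Prod.ext ?_ ?_
  · funext i; refine Fin.cases ?_ (fun j => ?_) i <;> simp [C]
  · funext i; refine Fin.cases ?_ (fun j => ?_) i <;> simp [C]

lemma C_smul (k a c : F) (v : VV m F) : C (k * a) (k * c) (k • v) = k • C a c v := by
  refine Prod.ext ?_ ?_
  · funext i; refine Fin.cases ?_ (fun j => ?_) i <;> simp [C]
  · funext i; refine Fin.cases ?_ (fun j => ?_) i <;> simp [C]

lemma C_split (a c : F) (v : VV m F) : C a c v = a • e0 m F + c • f0 m F + C 0 0 v := by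
  refine Prod.ext ?_ ?_
  · funext i; refine Fin.cases ?_ (fun j => ?_) i <;> simp [C, e0, f0]
  · funext i; refine Fin.cases ?_ (fun j => ?_) i <;> simp [C, e0, f0]

lemma om_C (a c a' c' : F) (v w : VV m F) : om (C a c v) (C a' c' w) = (a * c' - c * a') + om v w := by
  simp only [om, C, Fin.sum_univ_succ, Fin.cons_zero, Fin.cons_succ]

lemma om_e0 (v : VV (m + 1) F) : om (e0 m F) v = v.2 0 := by
  simp [om, e0, Fin.sum_univ_succ]

lemma om_f0 (v : VV (m + 1) F) : om v (f0 m F) = v.1 0 := by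
  simp [om, f0, Fin.sum_univ_succ]

/-- an element of `Lf` keeps the first coordinates -/
lemma keep (g : SpG (m + 1) F) (hg : g ∈ Lf m F) (v : VV (m + 1) F) : (g.1 v).1 0 = v.1 0 ∧ (g.1 v).2 0 = v.2 0 := by
  obtain ⟨h1, h2⟩ := hg
  refine ⟨?_, ?_⟩
  · rw [← om_f0 (g.1 v), ← om_f0 v]
    conv_lhs => rw [← h2]
    exact g.2 v (f0 m F)
  · rw [← om_e0 (g.1 v), ← om_e0 v]
    conv_lhs => rw [← h1]
    exact g.2 (e0 m F) v

lemma act (g : SpG (m + 1) F) (hg : g ∈ Lf m F) (a c : F) (v : VV m F) :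
    g.1 (C a c v) = C a c (T (g.1 (C 0 0 v))) := by
  have h1 : g.1 (C 0 0 v) = C 0 0 (T (g.1 (C 0 0 v))) := by
    have h2 := keep g hg (C 0 0 v)
    have h3 := C_T (g.1 (C 0 0 v))
    rw [h2.1, h2.2] at h3
    exact h3.symm
  rw [C_split, map_add, map_add, map_smul, map_smul, hg.1, hg.2, C_split a c (T (g.1 (C 0 0 v))), ← h1]

/-- the restriction of an element of `Lf` -/
def dn (g : SpG (m + 1) F) (hg : g ∈ Lf m F) : VV m F ≃ₗ[F] VV m F where
  toFun v := T (g.1 (C 0 0 v))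
  invFun v := T ((g⁻¹).1 (C 0 0 v))
  map_add' v w := by
    rw [← T_add, ← map_add, ← C_add, add_zero]
  map_smul' k v := by
    rw [RingHom.id_apply, ← T_smul, ← map_smul, ← C_smul, mul_zero]
  left_inv v := by
    show T ((g⁻¹).1 (C 0 0 (T (g.1 (C 0 0 v))))) = v
    rw [← act g hg]
    show T (g.1.symm (g.1 (C 0 0 v))) = v
    rw [LinearEquiv.symm_apply_apply, T_C]
  right_inv v := by
    show T (g.1 (C 0 0 (T ((g⁻¹).1 (C 0 0 v))))) = v
    rw [← act g⁻¹ (inv_mem hg)]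
    show T (g.1 (g.1.symm (C 0 0 v))) = v
    rw [LinearEquiv.apply_symm_apply, T_C]

lemma dn_sp (g : SpG (m + 1) F) (hg : g ∈ Lf m F) : dn g hg ∈ SpG m F := by
  intro v w
  show om (T (g.1 (C 0 0 v))) (T (g.1 (C 0 0 w))) = om v w
  have h1 := om_C 0 0 0 0 (T (g.1 (C 0 0 v))) (T (g.1 (C 0 0 w)))
  rw [← act g hg, ← act g hg, g.2, om_C] at h1
  simpa using h1.symm

/-- the extension of an element of `Sp_{2m}` -/
def up (h : SpG m F) : VV (m + 1) F ≃ₗ[F] VV (m + 1) F where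
  toFun v := C (v.1 0) (v.2 0) (h.1 (T v))
  invFun v := C (v.1 0) (v.2 0) (h.1.symm (T v))
  map_add' v w := by
    rw [T_add, map_add, ← C_add]
    rfl
  map_smul' k v := by
    rw [RingHom.id_apply, T_smul, map_smul, ← C_smul]
    rfl
  left_inv v := by
    show C (v.1 0) (v.2 0) (h.1.symm (T (C (v.1 0) (v.2 0) (h.1 (T v))))) = v
    rw [T_C, LinearEquiv.symm_apply_apply, C_T]
  right_inv v := by
    show C (v.1 0) (v.2 0) (h.1 (T (C (v.1 0) (v.2 0) (h.1.symm (T v))))) = v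
    rw [T_C, LinearEquiv.apply_symm_apply, C_T]

lemma up_apply (h : SpG m F) (v : VV (m + 1) F) : up h v = C (v.1 0) (v.2 0) (h.1 (T v)) := rfl

lemma up_sp (h : SpG m F) : up h ∈ SpG (m + 1) F := by
  intro v w
  rw [up_apply, up_apply, om_C, h.2, ← om_C, C_T, C_T]

lemma up_Lf (h : SpG m F) : (⟨up h, up_sp h⟩ : SpG (m + 1) F) ∈ Lf m F := by
  refine ⟨?_, ?_⟩
  · show up h (e0 m F) = e0 m F
    have h0 : T (e0 m F) = 0 := by
      refine Prod.ext ?_ ?_
      · funext i; simp [T, e0, Fin.tail]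
      · funext i; simp [T, e0, Fin.tail]
    rw [up_apply, h0, map_zero, ← h0, C_T]
  · show up h (f0 m F) = f0 m F
    have h0 : T (f0 m F) = 0 := by
      refine Prod.ext ?_ ?_
      · funext i; simp [T, f0, Fin.tail]
      · funext i; simp [T, f0, Fin.tail]
    rw [up_apply, h0, map_zero, ← h0, C_T]

/-- LFI -/
theorem hLFI : StLFI := by
  intro m F _
  refine ⟨{ toFun := fun g => ⟨dn g.1 g.2, dn_sp g.1 g.2⟩,
            invFun := fun h => ⟨⟨up h, up_sp h⟩, up_Lf h⟩,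
            left_inv := ?_, right_inv := ?_, map_mul' := ?_ }⟩
  · intro g
    refine Subtype.ext (Subtype.ext (LinearEquiv.ext fun v => ?_))
    show C (v.1 0) (v.2 0) (T (g.1.1 (C 0 0 (T v)))) = g.1.1 v
    rw [← act g.1 g.2, C_T]
  · intro h
    refine Subtype.ext (LinearEquiv.ext fun v => ?_)
    show T (C _ _ (h.1 (T (C 0 0 v)))) = h.1 v
    rw [T_C, T_C]
  · intro g g'
    refine Subtype.ext (LinearEquiv.ext fun v => ?_)
    show T (g.1.1 (g'.1.1 (C 0 0 v))) = T (g.1.1 (C 0 0 (T (g'.1.1 (C 0 0 v)))))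
    rw [← act g'.1 g'.2]

end Pool.Agent.Helper20.SPN
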